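import Pool.Agent.N558.AW.Even3

/-!
The sign of the action on the points for odd `m` (adapted from N70/EP/Even.lean and
N558/AW/Even1.lean).
-/

set_option autoImplicit false

namespace Pool.Agent.N344.EO

open Polynomial Matrix Pool.Agent.N558.AW

theorem map_mulMat' {N : Type} [Field N] (b : ℕ) (g : N[X]) (hg : g ≠ 0) (hb : g.natDegree = b)
    (σ : N →+* N) (hσ : g.map σ = g) (h : N[X]) :
    (mulMat b g hg hb h).map σ = mulMat b g hg hb (h.map σ) := by
  ext j' j
  rw [Matrix.map_apply]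
  symm
  refine mulMat_of_dvd b g hg hb (h.map σ) j (fun j' => σ (mulMat b g hg hb h j' j)) ?_ j'
  have h0 : ∀ c : Fin b → N, g ∣ X ^ (j : ℕ) * h - ∑ j' : Fin b, C (c j') * X ^ (j' : ℕ) →
      g ∣ X ^ (j : ℕ) * h.map σ - ∑ j' : Fin b, C (σ (c j')) * X ^ (j' : ℕ) := by
    intro c hc
    have h1 : g.map σ ∣ (X ^ (j : ℕ) * h - ∑ j' : Fin b, C (c j') * X ^ (j' : ℕ)).map σ :=
      Polynomial.map_dvd σ hc
    rw [hσ, Polynomial.map_sub, Polynomial.map_mul, Polynomial.map_pow, Polynomial.map_X,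
      Polynomial.map_sum] at h1
    simp only [Polynomial.map_mul, Polynomial.map_C, Polynomial.map_pow, Polynomial.map_X] at h1
    exact h1
  exact h0 _ (dvd_mulMat b g hg hb h j)

theorem sign_rho_odd (m b : ℕ) (hm : Odd m) :
    Equiv.Perm.sign (rho m b) = Equiv.Perm.sign (Fin.revPerm : Equiv.Perm (Fin b)) := by
  rw [rho, Equiv.Perm.sign_prodCongrLeft, Finset.prod_const, Finset.card_univ, Fintype.card_fin]
  obtain ⟨k, rfl⟩ := hm
  rw [pow_succ, pow_mul, Int.units_sq, one_pow, one_mul]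

theorem det_bz_odd {N : Type} [Field N] (m b : ℕ) (hm : Odd m) (P : Matrix (Fin m) (Fin m) N[X])
    (hP : ∀ l l', (P l l').natDegree ≤ b) (c : N)
    (hc : ∀ l l', (P l l').coeff b = if l = l' then c else 0) :
    (bz m b P).det =
      (((Equiv.Perm.sign (Fin.revPerm : Equiv.Perm (Fin b)) : ℤˣ) : ℤ) : N) * c ^ (b * m) := by
  have h0 : (((Equiv.Perm.sign (Fin.revPerm : Equiv.Perm (Fin b)) : ℤˣ) : ℤ) : N) *
      (((Equiv.Perm.sign (Fin.revPerm : Equiv.Perm (Fin b)) : ℤˣ) : ℤ) : N) = 1 := by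
    have h := Int.units_mul_self (Equiv.Perm.sign (Fin.revPerm : Equiv.Perm (Fin b)))
    have h' : ((Equiv.Perm.sign (Fin.revPerm : Equiv.Perm (Fin b)) : ℤˣ) : ℤ) *
        ((Equiv.Perm.sign (Fin.revPerm : Equiv.Perm (Fin b)) : ℤˣ) : ℤ) = 1 := by
      rw [← Units.val_mul, h, Units.val_one]
    rw [← Int.cast_mul, h', Int.cast_one]
  have h1 : ((bz m b P).submatrix id (rho m b)).det =
      (((Equiv.Perm.sign (Fin.revPerm : Equiv.Perm (Fin b)) : ℤˣ) : ℤ) : N) *
        (bz m b P).det := by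
    rw [Matrix.det_permute', sign_rho_odd m b hm]
  have h5 : (bz m b P).det =
      (((Equiv.Perm.sign (Fin.revPerm : Equiv.Perm (Fin b)) : ℤˣ) : ℤ) : N) *
        ((bz m b P).submatrix id (rho m b)).det := by
    rw [h1, ← mul_assoc, h0, one_mul]
  rw [h5]
  congr 1
  have h2 : (((bz m b P).submatrix id (rho m b)).submatrix (ofLex (α := Fin b × Fin m))
      (ofLex (α := Fin b × Fin m))).det = ((bz m b P).submatrix id (rho m b)).det :=
    Matrix.det_submatrix_equiv_self (ofLex (α := Fin b × Fin m)) _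
  rw [← h2, Matrix.det_of_isUpperTriangular]
  · rw [Finset.prod_congr rfl (g := fun _ => c)]
    · rw [Finset.prod_const, Finset.card_univ]
      congr 1
      have : Fintype.card (Fin b ×ₗ Fin m) = Fintype.card (Fin b × Fin m) := rfl
      rw [this, Fintype.card_prod, Fintype.card_fin, Fintype.card_fin]
    · intro x _
      have h3 : ((ofLex x).1 : ℕ) + (Fin.rev (ofLex x).1 : ℕ) + 1 = b := by
        have := (ofLex x).1.isLt
        rw [Fin.val_rev]
        omega
      show (P (ofLex x).2 (ofLex x).2).coeff (((ofLex x).1 : ℕ) + (Fin.rev (ofLex x).1 : ℕ) + 1) = c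
      rw [h3, hc, if_pos rfl]
  · intro x y hxy
    show (P (ofLex x).2 (ofLex y).2).coeff (((ofLex x).1 : ℕ) + (Fin.rev (ofLex y).1 : ℕ) + 1) = 0
    have hxy' : y < x := hxy
    rw [Prod.Lex.lt_iff] at hxy'
    have hy := (ofLex y).1.isLt
    rcases hxy' with h | ⟨h, h'⟩
    · have h4 : ((ofLex y).1 : ℕ) < (ofLex x).1 := h
      apply Polynomial.coeff_eq_zero_of_natDegree_lt
      have := hP (ofLex x).2 (ofLex y).2
      rw [Fin.val_rev]
      omega
    · have h4 : ((ofLex x).1 : ℕ) + (Fin.rev (ofLex y).1 : ℕ) + 1 = b := by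
        rw [h, Fin.val_rev]
        have := (ofLex x).1.isLt
        omega
      rw [h4, hc, if_neg]
      exact h'.ne'

/-- The sign of the permutation `π`. -/
theorem t_ev0 :
  ∀ (N : Type) [Field N] [IsAlgClosed N] [CharZero N] (σ : N ≃+* N) (m b : ℕ) (T : N)
    (A q : N[X]) (S L PP : Matrix (Fin m) (Fin m) N[X]) (r : Fin (m * b) → N)
    (e es : Fin (m * b) → Fin m → N) (s : Fin (m * b) → N) (π : Equiv.Perm (Fin (m * b)))
    (ε ε' : ℤˣ) (c w : N), Odd m → 0 < b → Odd b → A.natDegree = b →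
    S.det = q ^ 2 → S.transpose = S →
    L.transpose = L → (∀ l l', ((L * S) l l').natDegree < b) →
    IsCoprime (C T - A) q →
    PP = (C T - A) • (1 : Matrix (Fin m) (Fin m) N[X]) - L * S →
    σ T = T → A.map (σ : N →+* N) = A →
    q.map (σ : N →+* N) = C (((ε : ℤˣ) : ℤ) : N) * q →
    (b : N) * A.coeff b = c ^ 2 → σ c = c →
    w ^ 2 = (((Equiv.Perm.sign (Fin.revPerm : Equiv.Perm (Fin b)) : ℤˣ) : ℤ) : N) * (b : N) →
    σ w = (((ε' : ℤˣ) : ℤ) : N) * w →
    Function.Injective r → (∀ i, s i ≠ 0) →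
    (∀ i l', ∑ l, e i l * (PP l l').eval (r i) = 0) →
    (∀ i l, ∑ l', (PP l l').eval (r i) * es i l' = 0) →
    (∀ i, ∑ l, ∑ l', e i l * (derivative (PP l l')).eval (r i) * es i l' = -(s i) ^ 2) →
    (∀ i l, e i l = ∑ l', (S l l').eval (r i) * es i l') →
    (∀ i, σ (r i) = r (π i)) → (∀ i l, σ (e i l) = e (π i) l) → (∀ i, σ (s i) = s (π i)) →
    Equiv.Perm.sign π = ε * ε' := by
  intro N _ _ _ σ m b T A q S L PP r e es s π ε ε' c w hm hb hbo hA hdet hS hL hLS hcop hPP hσT
    hσA hσq hbc hσc hw hσw hr hs h1 h2 h4 h5 h6 h7 h8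
  classical
  -- the transposed pencil
  have hSL : ∀ l l', ((S * L) l l').natDegree < b := by
    intro l l'
    have h9 : S * L = (L * S).transpose := by
      rw [Matrix.transpose_mul, hS, hL]
    rw [h9, Matrix.transpose_apply]
    exact hLS l' l
  have hPPe : ∀ l l', PP l l' = (C T - A) * (if l = l' then 1 else 0) - (L * S) l l' := by
    intro l l'
    rw [hPP, Matrix.sub_apply, Matrix.smul_apply, smul_eq_mul, Matrix.one_apply]
  have hPPt : ∀ l l', PP l' l = (C T - A) * (if l = l' then 1 else 0) - (S * L) l l' := by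
    intro l l'
    have h9 : S * L = (L * S).transpose := by
      rw [Matrix.transpose_mul, hS, hL]
    rw [hPPe, h9, Matrix.transpose_apply]
    congr 3
    exact propext ⟨Eq.symm, Eq.symm⟩
  have hdeg : ∀ l l', (PP l l').natDegree ≤ b := by
    intro l l'
    rw [hPPe]
    refine (Polynomial.natDegree_sub_le _ _).trans (max_le ?_ (hLS l l').le)
    split_ifs
    · rw [mul_one]
      refine (Polynomial.natDegree_sub_le _ _).trans (max_le ?_ hA.le)
      rw [Polynomial.natDegree_C]; exact Nat.zero_le _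
    · simp
  have hcoef : ∀ l l', (PP l l').coeff b = if l = l' then -(A.coeff b) else 0 := by
    intro l l'
    rw [hPPe, Polynomial.coeff_sub, Polynomial.coeff_eq_zero_of_natDegree_lt (hLS l l'), sub_zero]
    split_ifs
    · rw [mul_one, Polynomial.coeff_sub, Polynomial.coeff_C, if_neg hb.ne', zero_sub]
    · simp
  -- the Bezout identity
  have hbez := ev_bz_ev m b hb PP hdeg r hr e es (fun i => -(s i) ^ 2) h1 h2 h4
  have hdetbz := det_bz_odd m b hm PP hdeg (-(A.coeff b)) hcoef
  obtain ⟨g, hgdef⟩ : ∃ g : N,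
    g = (((Equiv.Perm.sign (Fin.revPerm : Equiv.Perm (Fin b)) : ℤˣ) : ℤ) : N) := ⟨_, rfl⟩
  rw [← hgdef] at hdetbz hw
  have hgg : g * g = 1 := by
    have h := Int.units_mul_self (Equiv.Perm.sign (Fin.revPerm : Equiv.Perm (Fin b)))
    have h' : ((Equiv.Perm.sign (Fin.revPerm : Equiv.Perm (Fin b)) : ℤˣ) : ℤ) *
        ((Equiv.Perm.sign (Fin.revPerm : Equiv.Perm (Fin b)) : ℤˣ) : ℤ) = 1 := by
      rw [← Units.val_mul, h, Units.val_one]
    rw [hgdef, ← Int.cast_mul, h', Int.cast_one]
  -- square matrices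
  let eqv : Fin (m * b) ≃ Fin b × Fin m :=
    (finCongr (Nat.mul_comm m b)).trans finProdFinEquiv.symm
  set Xs : Matrix (Fin (m * b)) (Fin (m * b)) N := (ev m b r e).submatrix id eqv with hXs
  set Ys : Matrix (Fin (m * b)) (Fin (m * b)) N := (ev m b r es).submatrix id eqv with hYs
  have hprod : Xs.det * (g * (-(A.coeff b)) ^ (b * m)) * Ys.det = ∏ i, (-(s i) ^ 2) := by
    rw [← hdetbz, ← Matrix.det_diagonal, ← hbez, ← Matrix.det_submatrix_equiv_self eqv (bz m b PP),
      ← Matrix.det_transpose Ys, ← Matrix.det_mul, ← Matrix.det_mul, hXs, hYs,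
      Matrix.transpose_submatrix, Matrix.submatrix_mul_equiv, Matrix.submatrix_mul_equiv,
      Matrix.submatrix_id_id]
  -- the deformation
  obtain ⟨SZ, hSZ⟩ := exists_family m b hb T A S L hA hSL
  have hnz : ∀ z : N, (SZ.det).eval z ≠ 0 := by
    intro z
    have h9 := det_ne_zero m b hb T z A q S L hA hdet hLS hcop _ (hSZ z)
    have h10 : (SZ.det).eval z = (SZ.map (Polynomial.eval z)).det := by
      have := RingHom.map_det (Polynomial.evalRingHom z) SZ
      rw [Polynomial.coe_evalRingHom] at this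
      rw [this]
      rfl
    rw [h10]
    exact h9
  have hconst : (SZ.det).eval 1 = (SZ.det).eval 0 := by
    have h9 : (SZ.det).degree = 0 := by
      by_contra hcon
      obtain ⟨z, hz⟩ := IsAlgClosed.exists_root SZ.det hcon
      exact hnz z hz
    rw [Polynomial.eq_C_of_degree_eq_zero h9, Polynomial.eval_C, Polynomial.eval_C]
  have heval : ∀ z : N, (SZ.det).eval z = (SZ.map (Polynomial.eval z)).det := by
    intro z
    have := RingHom.map_det (Polynomial.evalRingHom z) SZ
    rw [Polynomial.coe_evalRingHom] at this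
    rw [this]
    rfl
  have hg : C T - A ≠ 0 := by
    intro h9
    have h10 : (C T - A).natDegree = b := by
      rw [Polynomial.natDegree_sub, Polynomial.natDegree_sub_C, hA]
    rw [h9] at h10
    simp at h10
    omega
  have hgd : (C T - A).natDegree = b := by
    rw [Polynomial.natDegree_sub, Polynomial.natDegree_sub_C, hA]
  set ν : N := (mulMat b (C T - A) hg hgd q).det with hν
  have hD0 : (SZ.det).eval 0 = ν ^ 2 := by
    rw [heval]
    exact det_zero b (C T - A) hg hgd m T A q S L rfl hdet _ (hSZ 0)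
  -- `X = Y S_1`
  have hXY : Xs.det = Ys.det * ν ^ 2 := by
    rw [← hD0, ← hconst, heval]
    have h9 : ev m b r e = ev m b r es * SZ.map (Polynomial.eval 1) := by
      obtain ⟨h, hh⟩ := hSZ 1
      ext i x
      have h10 : ∀ l', (X ^ (x.1 : ℕ) * S l' x.2 : N[X]).eval (r i) * es i l' =
          (∑ k, (PP k l').eval (r i) * (h x k).eval (r i)) * es i l' +
            (∑ j' : Fin b, (SZ.map (Polynomial.eval 1)) (j', l') x * r i ^ (j' : ℕ)) * es i l' := by
        intro l'
        rw [hh x l', Polynomial.eval_add, add_mul, Polynomial.eval_finsetSum,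
          Polynomial.eval_finsetSum]
        congr 2
        · refine Finset.sum_congr rfl fun k _ => ?_
          rw [Polynomial.eval_mul, hPPt, C_1, one_mul]
        · refine Finset.sum_congr rfl fun j' _ => ?_
          rw [Polynomial.eval_mul, Polynomial.eval_C, Polynomial.eval_pow, Polynomial.eval_X]
      have h11 := Finset.sum_congr (rfl : (Finset.univ : Finset (Fin m)) = Finset.univ)
        fun l' _ => h10 l'
      rw [Finset.sum_add_distrib] at h11
      have h12 : ∑ l', (∑ k, (PP k l').eval (r i) * (h x k).eval (r i)) * es i l' = 0 := by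
        simp only [Finset.sum_mul]
        rw [Finset.sum_comm]
        refine Finset.sum_eq_zero fun k _ => ?_
        have h13 : ∑ l', (PP k l').eval (r i) * (h x k).eval (r i) * es i l' =
            (h x k).eval (r i) * ∑ l', (PP k l').eval (r i) * es i l' := by
          rw [Finset.mul_sum]
          refine Finset.sum_congr rfl fun l' _ => ?_
          ring
        rw [h13, h2, mul_zero]
      rw [h12, zero_add] at h11
      have h14 : ev m b r e i x = ∑ l', (X ^ (x.1 : ℕ) * S l' x.2 : N[X]).eval (r i) * es i l' := by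
        show r i ^ (x.1 : ℕ) * e i x.2 = _
        rw [h5, Finset.mul_sum]
        refine Finset.sum_congr rfl fun l' _ => ?_
        rw [Polynomial.eval_mul, Polynomial.eval_pow, Polynomial.eval_X]
        have h15 : S x.2 l' = S l' x.2 := by
          conv_lhs => rw [← hS, Matrix.transpose_apply]
        rw [h15]
        ring
      rw [h14, h11, Matrix.mul_apply, Fintype.sum_prod_type, Finset.sum_comm]
      refine Finset.sum_congr rfl fun l' _ => ?_
      rw [Finset.sum_mul]
      refine Finset.sum_congr rfl fun j' _ => ?_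
      show _ = (r i ^ (j' : ℕ) * es i l') * _
      ring
    rw [hXs, h9, hYs, ← Matrix.det_submatrix_equiv_self eqv (SZ.map (Polynomial.eval 1)),
      ← Matrix.det_mul, Matrix.submatrix_mul_equiv]
  -- the square
  have hodd : Odd (b * m) := hbo.mul hm
  obtain ⟨j, hj⟩ := hodd
  set a : N := A.coeff b with ha
  have ha0 : a ≠ 0 := by
    rw [ha, ← hA, Polynomial.coeff_natDegree, Polynomial.leadingCoeff_ne_zero]
    rintro rfl
    simp at hA
    omega
  have hb0 : (b : N) ≠ 0 := by exact_mod_cast hb.ne'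
  have hgn : g ≠ 0 := by
    intro h
    rw [h, zero_mul] at hgg
    exact zero_ne_one hgg
  obtain ⟨u, hu⟩ : ∃ u : N, u = w * c / b := ⟨_, rfl⟩
  have hu2 : u ^ 2 = g * a := by
    rw [hu, div_pow, mul_pow, hw, ← hbc]
    field_simp
  have hsq : (Xs.det * (u * a ^ j)) ^ 2 = (ν * ∏ i, s i) ^ 2 := by
    have h9 : (-a) ^ (b * m) = -(a * (a ^ j) ^ 2) := by
      rw [hj, Odd.neg_pow ⟨j, rfl⟩]
      ring
    have h10 : ∏ i, (-(s i) ^ 2) = -(∏ i, s i) ^ 2 := by
      rw [Finset.prod_neg, Finset.card_univ, Fintype.card_fin, Finset.prod_pow]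
      rw [Odd.neg_one_pow, neg_one_mul]
      rw [Nat.mul_comm]
      exact ⟨j, hj⟩
    rw [h9, h10] at hprod
    have h11 : Xs.det * (g * (a * (a ^ j) ^ 2)) * Ys.det = (∏ i, s i) ^ 2 := by
      linear_combination (-1 : N) * hprod
    calc (Xs.det * (u * a ^ j)) ^ 2 = Xs.det * (u ^ 2 * (a ^ j) ^ 2) * Xs.det := by ring
      _ = Xs.det * (g * a * (a ^ j) ^ 2) * (Ys.det * ν ^ 2) := by rw [hu2, ← hXY]
      _ = (Xs.det * (g * (a * (a ^ j) ^ 2)) * Ys.det) * ν ^ 2 := by ring
      _ = (∏ i, s i) ^ 2 * ν ^ 2 := by rw [h11]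
      _ = (ν * ∏ i, s i) ^ 2 := by ring
  -- invariance
  have hσν : σ ν = (((ε : ℤˣ) : ℤ) : N) * ν := by
    have h9 := map_mulMat' b (C T - A) hg hgd (σ : N →+* N)
      (by rw [Polynomial.map_sub, Polynomial.map_C, hσA]; congr 2) q
    have h10 := RingHom.map_det (σ : N →+* N) (mulMat b (C T - A) hg hgd q)
    rw [RingHom.mapMatrix_apply, h9, hσq] at h10
    refine Eq.trans h10 ?_
    rcases Int.units_eq_one_or ε with rfl | rfl
    · simp [hν]
    · have h11 : (C ((((-1 : ℤˣ) : ℤˣ) : ℤ) : N) * q : N[X]) = -q := by simp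
      rw [h11, map_neg, Matrix.det_neg, Fintype.card_fin, hbo.neg_one_pow]
      simp [hν]
  have hσa : σ a = a := by
    have := congrArg (fun p : N[X] => p.coeff b) hσA
    simpa using this
  have hσs : σ (∏ i, s i) = ∏ i, s i := by
    rw [map_prod]
    simp only [h8]
    exact Equiv.prod_comp π s
  have hσX : σ Xs.det = (Equiv.Perm.sign π : ℤ) * Xs.det := by
    have h9 := RingHom.map_det (σ : N →+* N) Xs
    have h10 : (σ : N →+* N).mapMatrix Xs = Xs.submatrix π id := by
      ext i x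
      rw [RingHom.mapMatrix_apply, Matrix.map_apply, Matrix.submatrix_apply, hXs,
        Matrix.submatrix_apply, Matrix.submatrix_apply]
      show σ (r i ^ _ * e i _) = r (π i) ^ _ * e (π i) _
      rw [map_mul, map_pow, h6, h7]
      rfl
    rw [h10, Matrix.det_permute] at h9
    exact h9
  have hX0 : Xs.det ≠ 0 := by
    intro h9
    rw [h9, zero_mul, zero_mul] at hprod
    have h10 := Finset.prod_eq_zero_iff.1 hprod.symm
    obtain ⟨i, _, hi⟩ := h10
    exact hs i (by simpa using hi)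
  have hσu : σ u = (((ε' : ℤˣ) : ℤ) : N) * u := by
    rw [hu, map_div₀, map_mul, hσw, hσc, map_natCast]
    ring
  have hfin : ((Equiv.Perm.sign π : ℤ) : N) * (((ε' : ℤˣ) : ℤ) : N) *
      (Xs.det * (u * a ^ j)) = (((ε : ℤˣ) : ℤ) : N) * (Xs.det * (u * a ^ j)) := by
    have h9 : σ (Xs.det * (u * a ^ j)) = ((Equiv.Perm.sign π : ℤ) : N) *
        (((ε' : ℤˣ) : ℤ) : N) * (Xs.det * (u * a ^ j)) := by
      rw [map_mul, map_mul, map_pow, hσX, hσa, hσu]
      ring
    rw [← h9]
    rcases sq_eq_sq_iff_eq_or_eq_neg.1 hsq with h10 | h10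
    · rw [h10, map_mul, hσν, hσs]
      ring
    · rw [h10, map_neg, map_mul, hσν, hσs]
      ring
  have hu0 : u ≠ 0 := by
    intro h
    rw [h, zero_pow two_ne_zero] at hu2
    exact mul_ne_zero hgn ha0 hu2.symm
  have hne : Xs.det * (u * a ^ j) ≠ 0 := mul_ne_zero hX0 (mul_ne_zero hu0 (pow_ne_zero _ ha0))
  have hsign : ((Equiv.Perm.sign π : ℤ) : N) * (((ε' : ℤˣ) : ℤ) : N) = (((ε : ℤˣ) : ℤ) : N) :=
    mul_right_cancel₀ hne hfin
  have h10 : (Equiv.Perm.sign π : ℤ) * ((ε' : ℤˣ) : ℤ) = ((ε : ℤˣ) : ℤ) := by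
    exact_mod_cast hsign
  have h11 : Equiv.Perm.sign π * ε' = ε := by
    apply Units.ext
    rw [Units.val_mul]
    exact h10
  rw [← h11, mul_assoc, Int.units_mul_self, mul_one]

end Pool.Agent.N344.EO
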