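import Pool.Agent.N70.EO.Stm
import Pool.Agent.N344.EO.EV0

/-!
The sign of the permutation for odd `m`.
-/

set_option autoImplicit false

namespace Pool.Agent.N344.EO

theorem t_ev : Pool.Agent.N70.EO.St_ev := t_ev0

end Pool.Agent.N344.EO
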